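import Pool.Agent.Work.MP_db9399_eg.LOCDEF

/-!
# MP_db9399, ENGN: numbers (helper68, after helper89's NUM)
-/

set_option autoImplicit false

namespace Pool.Agent.Work.MP_db9399_eg.helper68

open Pool.Agent.Work.MP_db9399_en

/-- everything in terms of `x = d ^ (1 / 2500)` -/
theorem num_aux {x r K T L P ρ ε M D Dt δ : ℝ} (hx : 10 ^ 10 ≤ x) (hr : x ^ 2499 ≤ r)
    (hr' : r ≤ x ^ 2500) (hK1 : 1 ≤ K) (hK : K ≤ x) (hT1 : 1 ≤ T) (hT : T ≤ x) (hL1 : 1 ≤ L)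
    (hL : L ≤ x) (hP0 : 0 ≤ P) (hP : P ≤ 2 * x ^ 2500)
    (hρ : 1 / x ≤ ρ) (hρ1 : ρ ≤ 1) (hε : 1 / x ≤ ε) (hM1 : 4 * x ^ 1500 ≤ M) (hM2 : M ≤ 8 * x ^ 1501)
    (hD : D = 3 * r / (2 * M)) (hDt : Dt = D / (2 * K)) (hδ : δ = 1 / x ^ 50) :
    (100000 * K ^ 2 * δ ≤ ρ ∧ K / r ≤ δ ∧ T ≤ δ * (ρ * Dt) / 100 ∧ 1000 * (L * δ) ≤ 1) ∧
    (8 * T ≤ δ * r ∧ 8 * K ≤ δ * r ∧ 100 * T ≤ ρ * r ∧ 6000 * (P + r) ≤ δ * M ^ 2) ∧
    3 * 10 ^ 7 * (K * (L * δ * (6 * T / Dt) * P)) ≤ M * ρ * ε ∧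
    K * (3000 / ρ * (6 * T / Dt)) ≤ 1 / 4 ∧
    4 * 10 ^ 9 * (48 * x ^ 2500 / M + K) * L * K ^ 6 * T * δ ≤ ρ ^ 2 * D * ε ∧
    32 * (K * x ^ 2500) / M * (3000 / ρ * (6 * T / Dt)) + K + 4 ≤ x ^ 10 ∧
    48 * x ^ 2500 / M + K + 1 ≤ 1 / x * r ∧
    32 * x ^ 250 * (1000 / ρ * (6 * T / Dt)) ≤ ε ∧
    x ^ 250 ≤ δ ^ 2 * D / 64 ∧ x ^ 250 ≤ δ ^ 2 * Dt / 64 ∧ x ^ 250 ≤ ρ ^ 2 * D / 9216 ∧
    x ^ 250 ≤ ρ ^ 2 * Dt / 9216 ∧ x ^ 250 ≤ Dt / 4096 ∧ x ^ 250 ≤ δ * D / 16 ∧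
    x ^ 250 ≤ 2 * r / M := by
  have hx0 : 0 < x := lt_of_lt_of_le (by norm_num) hx
  have hx1 : 1 ≤ x := le_trans (by norm_num) hx
  have cst : ∀ (C : ℝ) (n : ℕ), C ≤ 10 ^ 10 → C * x ^ n ≤ x ^ (n + 1) := by
    intro C n hC
    rw [pow_succ' x n]
    exact mul_le_mul_of_nonneg_right (hC.trans hx) (by positivity)
  have pw : ∀ m n : ℕ, m ≤ n → x ^ m ≤ x ^ n := fun m n h => pow_le_pow_right₀ hx1 h
  have cpw : ∀ (C : ℝ) (m n : ℕ), C ≤ 10 ^ 10 → m + 1 ≤ n → C * x ^ m ≤ x ^ n :=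
    fun C m n hC h => (cst C m hC).trans (pw _ _ h)
  have hr0 : 0 < r := lt_of_lt_of_le (by positivity) hr
  have hM0 : 0 < M := lt_of_lt_of_le (by positivity) hM1
  have hK0 : 0 < K := by linarith
  have hT0 : 0 < T := by linarith
  have hL0 : 0 < L := by linarith
  have hρ0 : 0 < ρ := lt_of_lt_of_le (by positivity) hρ
  have hε0 : 0 < ε := lt_of_lt_of_le (by positivity) hε
  have hρx : 1 ≤ ρ * x := by
    rw [div_le_iff₀ hx0] at hρ
    exact hρ
  have hεx : 1 ≤ ε * x := by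
    rw [div_le_iff₀ hx0] at hε
    exact hε
  have hδ0 : 0 < δ := by
    rw [hδ]
    positivity
  have hδx : δ * x ^ 50 = 1 := by
    rw [hδ]
    field_simp
  -- D
  have hD1 : x ^ 997 ≤ D := by
    rw [hD, le_div_iff₀ (by positivity)]
    have h1 : x ^ 997 * (2 * M) ≤ x ^ 997 * (2 * (8 * x ^ 1501)) :=
      mul_le_mul_of_nonneg_left (by linarith) (by positivity)
    have h2 : x ^ 997 * (2 * (8 * x ^ 1501)) = 16 * x ^ 2498 := by ring
    have h3 := cpw 16 2498 2499 (by norm_num) (by norm_num)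
    linarith
  have hD0 : 0 < D := lt_of_lt_of_le (by positivity) hD1
  have hDt1 : x ^ 995 ≤ Dt := by
    rw [hDt, le_div_iff₀ (by positivity)]
    have h1 : x ^ 995 * (2 * K) ≤ x ^ 995 * (2 * x) :=
      mul_le_mul_of_nonneg_left (by linarith) (by positivity)
    have h2 : x ^ 995 * (2 * x) = 2 * x ^ 996 := by ring
    have h3 := cpw 2 996 997 (by norm_num) (by norm_num)
    linarith
  have hDt0 : 0 < Dt := lt_of_lt_of_le (by positivity) hDt1
  -- lower bounds for products with ρ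
  have hρn : ∀ n : ℕ, ∀ y : ℝ, x ^ (n + 1) ≤ y → x ^ n ≤ ρ * y := by
    intro n y hy
    have h1 : x ^ n * 1 ≤ x ^ n * (ρ * x) := mul_le_mul_of_nonneg_left hρx (by positivity)
    have h2 : x ^ n * (ρ * x) = ρ * x ^ (n + 1) := by ring
    have h3 : ρ * x ^ (n + 1) ≤ ρ * y := mul_le_mul_of_nonneg_left hy hρ0.le
    linarith
  have hεn : ∀ n : ℕ, ∀ y : ℝ, x ^ (n + 1) ≤ y → x ^ n ≤ y * ε := by
    intro n y hy
    have h1 : x ^ n * 1 ≤ x ^ n * (ε * x) := mul_le_mul_of_nonneg_left hεx (by positivity)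
    have h2 : x ^ n * (ε * x) = x ^ (n + 1) * ε := by ring
    have h3 : x ^ (n + 1) * ε ≤ y * ε := mul_le_mul_of_nonneg_right hy hε0.le
    linarith
  have hδn : ∀ n : ℕ, ∀ y : ℝ, x ^ (n + 50) ≤ y → x ^ n ≤ δ * y := by
    intro n y hy
    have h2 : δ * x ^ (n + 50) = x ^ n := by
      rw [pow_add]
      calc δ * (x ^ n * x ^ 50) = x ^ n * (δ * x ^ 50) := by ring
        _ = x ^ n := by rw [hδx, mul_one]
    have h3 : δ * x ^ (n + 50) ≤ δ * y := mul_le_mul_of_nonneg_left hy hδ0.le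
    linarith
  have hTd : ∀ (C : ℝ) (n : ℕ) (y : ℝ), 0 < C → C ≤ 10 ^ 10 → x ^ (n + 1) ≤ y → x ^ n ≤ y / C := by
    intro C n y hC hC' hy
    rw [le_div_iff₀ hC, mul_comm]
    exact (cst C n hC').trans hy
  have hΦ : 6 * T / Dt ≤ 1 / x ^ 993 := by
    rw [div_le_div_iff₀ hDt0 (by positivity)]
    have h1 : 6 * T * x ^ 993 ≤ 6 * x * x ^ 993 :=
      mul_le_mul_of_nonneg_right (by linarith) (by positivity)
    have h2 : 6 * x * x ^ 993 = 6 * x ^ 994 := by ring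
    have h3 := cpw 6 994 995 (by norm_num) (by norm_num)
    linarith
  have hΦ0 : 0 < 6 * T / Dt := by positivity
  have h3000 : 3000 / ρ ≤ 3000 * x := by
    rw [div_le_iff₀ hρ0]
    nlinarith
  have h1000 : 1000 / ρ ≤ 1000 * x := by
    rw [div_le_iff₀ hρ0]
    nlinarith
  have hdM : x ^ 2500 / M ≤ x ^ 1000 / 4 := by
    rw [div_le_div_iff₀ hM0 (by norm_num)]
    have h3 : x ^ 1000 * (4 * x ^ 1500) ≤ x ^ 1000 * M :=
      mul_le_mul_of_nonneg_left hM1 (by positivity)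
    have h4 : x ^ 1000 * (4 * x ^ 1500) = x ^ 2500 * 4 := by ring
    linarith
  have h48 : 48 * x ^ 2500 / M ≤ 12 * x ^ 1000 := by
    rw [mul_div_assoc]
    linarith
  refine ⟨⟨?_, ?_, ?_, ?_⟩, ⟨?_, ?_, ?_, ?_⟩, ?_, ?_, ?_, ?_, ?_, ?_, ?_, ?_, ?_, ?_, ?_, ?_, ?_⟩
  · -- δρ
    refine le_trans ?_ hρ
    rw [hδ, mul_one_div, div_le_div_iff₀ (by positivity) hx0]
    have h1 : K ^ 2 ≤ x ^ 2 := pow_le_pow_left₀ hK0.le hK 2
    have h2 : 100000 * K ^ 2 * x ≤ 100000 * x ^ 2 * x :=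
      mul_le_mul_of_nonneg_right (by linarith) hx0.le
    have h3 : 100000 * x ^ 2 * x = 100000 * x ^ 3 := by ring
    have h4 := cpw 100000 3 50 (by norm_num) (by norm_num)
    linarith
  · rw [div_le_iff₀ hr0]
    have h1 := hδn 2449 r hr
    have h2 := pw 1 2449 (by norm_num)
    rw [pow_one] at h2
    linarith
  · have h1 := hδn 944 (ρ * Dt) (hρn 994 Dt hDt1)
    have h2 := hTd 100 943 _ (by norm_num) (by norm_num) h1
    have h3 := pw 1 943 (by norm_num)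
    rw [pow_one] at h3
    linarith
  · have h1 : L * δ ≤ x * δ := mul_le_mul_of_nonneg_right hL hδ0.le
    have h2 : 1000 * (x * δ) ≤ 1 := by
      rw [hδ]
      rw [mul_one_div, mul_div_assoc', div_le_one (by positivity)]
      have h4 := cpw 1000 1 50 (by norm_num) (by norm_num)
      rw [pow_one] at h4
      exact h4
    linarith
  · have h1 := hδn 2449 r hr
    have h2 := cpw 8 1 2449 (by norm_num) (by norm_num)
    rw [pow_one] at h2
    linarith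
  · have h1 := hδn 2449 r hr
    have h2 := cpw 8 1 2449 (by norm_num) (by norm_num)
    rw [pow_one] at h2
    linarith
  · have h1 := hρn 2498 r hr
    have h2 := cpw 100 1 2498 (by norm_num) (by norm_num)
    rw [pow_one] at h2
    linarith
  · have h1 : x ^ 3000 ≤ M ^ 2 := by
      have h2 : x ^ 1500 ≤ M := by
        have : 0 ≤ x ^ 1500 := by positivity
        linarith
      have h3 := pow_le_pow_left₀ (by positivity) h2 2
      have h4 : (x ^ 1500) ^ 2 = x ^ 3000 := by ring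
      rwa [h4] at h3
    have h2 := hδn 2950 (M ^ 2) h1
    have h3 := cpw 18000 2500 2950 (by norm_num) (by norm_num)
    linarith
  · -- u5
    have h1 : L * δ * (6 * T / Dt) * P ≤ x * δ * (1 / x ^ 993) * (2 * x ^ 2500) := by
      refine mul_le_mul ?_ hP hP0 (by positivity)
      refine mul_le_mul ?_ hΦ hΦ0.le (by positivity)
      exact mul_le_mul_of_nonneg_right hL hδ0.le
    have h2 : x * δ * (1 / x ^ 993) * (2 * x ^ 2500) = 2 * x ^ 1458 := by
      rw [hδ]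
      field_simp
    have h5 : K * (L * δ * (6 * T / Dt) * P) ≤ x * (2 * x ^ 1458) := by
      rw [← h2]
      exact mul_le_mul hK h1 (by positivity) hx0.le
    have h3 := hρn 1499 M (by
      have h : 0 ≤ x ^ 1500 := by positivity
      have e : x ^ (1499 + 1) = x ^ 1500 := rfl
      rw [e]
      linarith)
    have h4 := cpw (6 * 10 ^ 7) 1459 1498 (by norm_num) (by norm_num)
    have h6 := hεn 1498 _ h3
    rw [mul_comm M ρ]
    calc 3 * 10 ^ 7 * (K * (L * δ * (6 * T / Dt) * P)) ≤ 3 * 10 ^ 7 * (x * (2 * x ^ 1458)) :=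
          mul_le_mul_of_nonneg_left h5 (by norm_num)
      _ = 6 * 10 ^ 7 * x ^ 1459 := by ring
      _ ≤ x ^ 1498 := h4
      _ ≤ ρ * M * ε := h6
  · -- h3
    have h2 : K * (3000 / ρ * (6 * T / Dt)) ≤ x * (3000 * x * (1 / x ^ 993)) := by
      refine mul_le_mul hK ?_ (by positivity) hx0.le
      exact mul_le_mul h3000 hΦ hΦ0.le (by positivity)
    refine h2.trans ?_
    have h3 : x * (3000 * x * (1 / x ^ 993)) = 3000 * x ^ 2 / x ^ 993 := by
      field_simp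
    rw [h3, div_le_div_iff₀ (by positivity) (by norm_num)]
    have h4 := cpw 12000 2 993 (by norm_num) (by norm_num)
    linarith
  · -- hz
    have h1 : 48 * x ^ 2500 / M + K ≤ 13 * x ^ 1000 := by
      have h3 := pw 1 1000 (by norm_num)
      rw [pow_one] at h3
      linarith
    have h2 : K ^ 6 ≤ x ^ 6 := pow_le_pow_left₀ hK0.le hK 6
    have h3 : 4 * 10 ^ 9 * (48 * x ^ 2500 / M + K) * L * K ^ 6 * T * δ ≤
        4 * 10 ^ 9 * (13 * x ^ 1000) * x * x ^ 6 * x * δ := by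
      refine mul_le_mul_of_nonneg_right ?_ hδ0.le
      refine mul_le_mul ?_ hT hT0.le (by positivity)
      refine mul_le_mul ?_ h2 (by positivity) (by positivity)
      refine mul_le_mul ?_ hL hL0.le (by positivity)
      exact mul_le_mul_of_nonneg_left h1 (by norm_num)
    have h4 : 4 * 10 ^ 9 * (13 * x ^ 1000) * x * x ^ 6 * x * δ = 52 * 10 ^ 9 * x ^ 958 := by
      rw [hδ]
      field_simp
      norm_num
    have h5 : 52 * 10 ^ 9 * x ^ 958 ≤ x ^ 994 := by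
      have g1 := cpw (10 ^ 9) 958 959 (by norm_num) (by norm_num)
      have g2 := cpw 52 959 994 (by norm_num) (by norm_num)
      linarith
    have h6 := hεn 994 _ (hρn 995 _ (hρn 996 D hD1))
    have h7 : ρ * (ρ * D) * ε = ρ ^ 2 * D * ε := by ring
    linarith
  · -- local exits
    have h1 : 32 * (K * x ^ 2500) / M ≤ 8 * x ^ 1001 := by
      have e : 32 * (K * x ^ 2500) / M = 32 * K * (x ^ 2500 / M) := by ring
      rw [e]
      have g1 : 32 * K * (x ^ 2500 / M) ≤ 32 * x * (x ^ 1000 / 4) :=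
        mul_le_mul (by linarith) hdM (by positivity) (by positivity)
      have g2 : 32 * x * (x ^ 1000 / 4) = 8 * x ^ 1001 := by ring
      linarith
    have h2 : 3000 / ρ * (6 * T / Dt) ≤ 3000 * x * (1 / x ^ 993) :=
      mul_le_mul h3000 hΦ hΦ0.le (by positivity)
    have h3 : 32 * (K * x ^ 2500) / M * (3000 / ρ * (6 * T / Dt)) ≤
        8 * x ^ 1001 * (3000 * x * (1 / x ^ 993)) :=
      mul_le_mul h1 h2 (by positivity) (by positivity)
    have h4 : 8 * x ^ 1001 * (3000 * x * (1 / x ^ 993)) = 24000 * x ^ 9 := by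
      field_simp
      ring
    have h5 := cpw 24005 9 10 (by norm_num) (by norm_num)
    have h6 := pw 1 9 (by norm_num)
    rw [pow_one] at h6
    linarith
  · have h1 := pw 1 1000 (by norm_num)
    rw [pow_one] at h1
    have h2 := cpw 14 1000 2498 (by norm_num) (by norm_num)
    have h3 : x ^ 2498 ≤ 1 / x * r := by
      rw [one_div, ← div_eq_inv_mul, le_div_iff₀ hx0]
      have : x ^ 2498 * x = x ^ 2499 := by ring
      linarith
    linarith
  · have h2 : 1000 / ρ * (6 * T / Dt) ≤ 1000 * x * (1 / x ^ 993) :=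
      mul_le_mul h1000 hΦ hΦ0.le (by positivity)
    have h3 : 32 * x ^ 250 * (1000 / ρ * (6 * T / Dt)) ≤
        32 * x ^ 250 * (1000 * x * (1 / x ^ 993)) :=
      mul_le_mul_of_nonneg_left h2 (by positivity)
    have h4 : 32 * x ^ 250 * (1000 * x * (1 / x ^ 993)) = 32000 / x ^ 742 := by
      field_simp
      ring
    have h5 : 32000 / x ^ 742 ≤ 1 / x := by
      rw [div_le_div_iff₀ (by positivity) hx0]
      have := cpw 32000 1 742 (by norm_num) (by norm_num)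
      rw [pow_one] at this
      linarith
    linarith
  · have h1 := hδn 897 _ (hδn 947 D hD1)
    have h2 : δ * (δ * D) = δ ^ 2 * D := by ring
    rw [h2] at h1
    exact (pw 250 896 (by norm_num)).trans (hTd 64 896 _ (by norm_num) (by norm_num) h1)
  · have h1 := hδn 895 _ (hδn 945 Dt hDt1)
    have h2 : δ * (δ * Dt) = δ ^ 2 * Dt := by ring
    rw [h2] at h1
    exact (pw 250 894 (by norm_num)).trans (hTd 64 894 _ (by norm_num) (by norm_num) h1)
  · have h1 := hρn 995 _ (hρn 996 D hD1)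
    have h2 : ρ * (ρ * D) = ρ ^ 2 * D := by ring
    rw [h2] at h1
    exact (pw 250 994 (by norm_num)).trans (hTd 9216 994 _ (by norm_num) (by norm_num) h1)
  · have h1 := hρn 993 _ (hρn 994 Dt hDt1)
    have h2 : ρ * (ρ * Dt) = ρ ^ 2 * Dt := by ring
    rw [h2] at h1
    exact (pw 250 992 (by norm_num)).trans (hTd 9216 992 _ (by norm_num) (by norm_num) h1)
  · exact (pw 250 994 (by norm_num)).trans (hTd 4096 994 _ (by norm_num) (by norm_num) hDt1)
  · have h1 := hδn 947 D hD1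
    exact (pw 250 946 (by norm_num)).trans (hTd 16 946 _ (by norm_num) (by norm_num) h1)
  · rw [le_div_iff₀ hM0]
    have h1 : x ^ 250 * M ≤ x ^ 250 * (8 * x ^ 1501) :=
      mul_le_mul_of_nonneg_left hM2 (by positivity)
    have h2 : x ^ 250 * (8 * x ^ 1501) = 8 * x ^ 1751 := by ring
    have h3 := cpw 8 1751 2499 (by norm_num) (by norm_num)
    linarith

theorem stmt_NUM2 : Stmt_NUM2 := by
  refine ⟨10 ^ 25000, ?_⟩
  intro d K0 T0 L ρ ε hd hK hT hL hρ1 hε0 hε1 hK' hT' hL' hρ hε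
  obtain ⟨x, hxd⟩ : ∃ x : ℝ, x = (d : ℝ) ^ (1 / 2500 : ℝ) := ⟨_, rfl⟩
  have hd0 : (0 : ℝ) ≤ d := Nat.cast_nonneg _
  have hdR : (10 : ℝ) ^ 25000 ≤ d := by
    have h : ((10 ^ 25000 : ℕ) : ℝ) ≤ d := Nat.cast_le.2 hd
    rw [Nat.cast_pow] at h
    exact h
  have hdp : (0 : ℝ) < d := lt_of_lt_of_le (by positivity) hdR
  have hx0 : 0 < x := by
    rw [hxd]
    exact Real.rpow_pos_of_pos hdp _
  have hx1000 : x ^ 2500 = d := by
    rw [hxd, ← Real.rpow_natCast, ← Real.rpow_mul hd0]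
    norm_num
  have hx : 10 ^ 10 ≤ x := by
    have h1 : ((10 : ℝ) ^ 10) ^ 2500 ≤ x ^ 2500 := by
      rw [hx1000, ← pow_mul]
      exact hdR
    exact le_of_pow_le_pow_left₀ (by norm_num) hx0.le h1
  have hd1R : (1 : ℝ) ≤ d := le_trans (one_le_pow₀ (by norm_num)) hdR
  clear hdR hd
  have hx999 : (d : ℝ) ^ (1 - 1 / 2500 : ℝ) = x ^ 2499 := by
    rw [hxd, ← Real.rpow_natCast, ← Real.rpow_mul hd0]
    norm_num
  have hx10 : (d : ℝ) ^ (1 / 250 : ℝ) = x ^ 10 := by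
    rw [hxd, ← Real.rpow_natCast, ← Real.rpow_mul hd0]
    norm_num
  have hxm : (d : ℝ) ^ (-(1 / 2500) : ℝ) = 1 / x := by
    rw [hxd, Real.rpow_neg hd0]
    exact (one_div _).symm
  rw [← hxd] at hK' hT' hL'
  rw [hxm] at hρ hε
  rw [hx999, hx10, hxm]
  have hx1 : 1 ≤ x := le_trans (by norm_num) hx
  have hKr : (1 : ℝ) ≤ K0 := by exact_mod_cast hK
  have hTr : (1 : ℝ) ≤ T0 := by exact_mod_cast hT
  have hLr : (1 : ℝ) ≤ L := by exact_mod_cast hL
  obtain ⟨m1, hm1, hm2⟩ : ∃ m1 : ℕ, x ^ 1500 ≤ m1 ∧ (m1 : ℝ) ≤ x ^ 1500 + 1 :=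
    ⟨⌈x ^ 1500⌉₊, Nat.le_ceil _, (Nat.ceil_lt_add_one (by positivity)).le⟩
  have hx600 : (1 : ℝ) ≤ x ^ 1500 := one_le_pow₀ hx1
  obtain ⟨M, hM⟩ : ∃ M : ℕ, M = 4 * (K0 * m1) := ⟨_, rfl⟩
  have hMr : (M : ℝ) = 4 * (K0 * m1) := by
    rw [hM]
    push_cast
    ring
  have hM1 : 4 * x ^ 1500 ≤ (M : ℝ) := by
    rw [hMr]
    have : x ^ 1500 ≤ K0 * m1 := by nlinarith
    linarith
  have hM2 : (M : ℝ) ≤ 8 * x ^ 1501 := by
    rw [hMr]
    have h1 : (K0 : ℝ) * m1 ≤ x * (2 * x ^ 1500) :=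
      mul_le_mul hK' (by linarith) (Nat.cast_nonneg _) hx0.le
    have h2 : x * (2 * x ^ 1500) = 2 * x ^ 1501 := by ring
    linarith
  have hM0 : (0 : ℝ) < M := lt_of_lt_of_le (by positivity) hM1
  have hm12 : 2 ≤ m1 := by
    have h1 : (2 : ℝ) ≤ x ^ 1500 := by
      have := pow_le_pow_right₀ hx1 (show 1 ≤ 1500 by norm_num)
      rw [pow_one] at this
      linarith
    have h2 : ((2 : ℕ) : ℝ) ≤ m1 := by
      push_cast
      linarith
    exact_mod_cast h2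
  have hρ0 : 0 < ρ := lt_of_lt_of_le (by positivity) hρ
  have hKd : (K0 : ℝ) * d ≤ x ^ 2501 := by
    have h1 : (K0 : ℝ) * d ≤ x * x ^ 2500 := by
      rw [hx1000]
      exact mul_le_mul_of_nonneg_right hK' hd0
    have h2 : x * x ^ 2500 = x ^ 2501 := by ring
    linarith
  refine ⟨m1, M, 1 / x ^ 50, x ^ 250, hM, hm12, by positivity, ?_, ?_, ?_, ?_⟩
  · -- ξ ≤ K0 d / M
    rw [le_div_iff₀ hM0]
    have h1 : x ^ 250 * M ≤ x ^ 250 * (8 * x ^ 1501) :=
      mul_le_mul_of_nonneg_left hM2 (by positivity)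
    have h2 : x ^ 250 * (8 * x ^ 1501) = 8 * x ^ 1751 := by ring
    have h3 : 8 * x ^ 1751 ≤ x * x ^ 1751 :=
      mul_le_mul_of_nonneg_right (by linarith) (by positivity)
    have h4 : x * x ^ 1751 = x ^ 1752 := by ring
    have h5 : x ^ 1752 ≤ x ^ 2500 := pow_le_pow_right₀ hx1 (by norm_num)
    have h6 : (1 : ℝ) * d ≤ K0 * d := mul_le_mul_of_nonneg_right hKr hd0
    rw [hx1000] at h5
    linarith
  · rw [div_le_iff₀ hM0]
    have h1 : x ^ 2499 * (4 * x ^ 1500) ≤ x ^ 2499 * M :=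
      mul_le_mul_of_nonneg_left hM1 (by positivity)
    have h2 : x ^ 2499 * (4 * x ^ 1500) = 4 * x ^ 3999 := by ring
    have h3 : x ^ 2502 ≤ x ^ 3999 := pow_le_pow_right₀ hx1 (by norm_num)
    have h4 : 16 * x ^ 2501 ≤ x * x ^ 2501 :=
      mul_le_mul_of_nonneg_right (by linarith) (by positivity)
    have h5 : x * x ^ 2501 = x ^ 2502 := by ring
    have h6 : 0 ≤ x ^ 3999 := by positivity
    linarith
  · have h1 : (x ^ 250) ^ 112 / (Nat.factorial 112 : ℝ) ≤ Real.exp (x ^ 250) :=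
      Real.pow_div_factorial_le_exp _ (by positivity) 112
    have h2 : (Nat.factorial 112 : ℝ) ≤ 10 ^ 200 := by
      norm_num [Nat.factorial]
    have h3 : (x ^ 250) ^ 112 / (10 : ℝ) ^ 200 ≤ (x ^ 250) ^ 112 / (Nat.factorial 112 : ℝ) :=
      div_le_div_of_nonneg_left (by positivity) (by positivity) h2
    have h4 : (K0 : ℝ) * d + 1 ≤ 2 * x ^ 2501 := by
      have : (1 : ℝ) ≤ x ^ 2501 := one_le_pow₀ hx1
      linarith
    have h5 : ((K0 : ℝ) * d + 1) ^ 11 ≤ (2 * x ^ 2501) ^ 11 :=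
      pow_le_pow_left₀ (by positivity) h4 11
    have h6 : (2 * x ^ 2501) ^ 11 = 2048 * x ^ 27511 := by ring
    have h7 : (x ^ 250) ^ 112 = x ^ 489 * x ^ 27511 := by ring
    have h8 : (10 : ℝ) ^ 250 ≤ x ^ 489 := by
      have g1 : ((10 : ℝ) ^ 10) ^ 25 ≤ x ^ 25 := pow_le_pow_left₀ (by norm_num) hx 25
      have g2 : x ^ 25 ≤ x ^ 489 := pow_le_pow_right₀ hx1 (by norm_num)
      have g3 : ((10 : ℝ) ^ 10) ^ 25 = 10 ^ 250 := by ring
      linarith
    have h9 : 10 ^ 6 * ((K0 : ℝ) * d + 1) ^ 11 ≤ Real.exp (x ^ 250) := by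
      refine le_trans ?_ (h3.trans h1)
      rw [le_div_iff₀ (by positivity), h7]
      have g1 : 10 ^ 6 * ((K0 : ℝ) * d + 1) ^ 11 ≤ 10 ^ 6 * (2048 * x ^ 27511) := by
        rw [← h6]
        exact mul_le_mul_of_nonneg_left h5 (by norm_num)
      have hxp : 0 ≤ x ^ 27511 := by positivity
      calc 10 ^ 6 * ((K0 : ℝ) * d + 1) ^ 11 * 10 ^ 200 ≤ 10 ^ 6 * (2048 * x ^ 27511) * 10 ^ 200 :=
            mul_le_mul_of_nonneg_right g1 (by norm_num)
        _ = 10 ^ 6 * 2048 * 10 ^ 200 * x ^ 27511 := by ring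
        _ ≤ 10 ^ 250 * x ^ 27511 := mul_le_mul_of_nonneg_right (by norm_num) hxp
        _ ≤ x ^ 489 * x ^ 27511 := mul_le_mul_of_nonneg_right h8 hxp
    have h10 : Real.exp (x ^ 250) * Real.exp (-x ^ 250) = 1 := by
      rw [← Real.exp_add, add_neg_cancel, Real.exp_zero]
    calc 10 ^ 6 * ((K0 : ℝ) * d + 1) ^ 11 * Real.exp (-x ^ 250) ≤
          Real.exp (x ^ 250) * Real.exp (-x ^ 250) :=
          mul_le_mul_of_nonneg_right h9 (Real.exp_pos _).le
      _ = 1 := h10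
  · intro P r hP hrd hr
    have hrR : (1 : ℝ) ≤ r := le_trans (one_le_pow₀ hx1) hr
    have hr1 : 1 ≤ r := by exact_mod_cast hrR
    have hPd : (P : ℝ) ≤ 2 * x ^ 2500 := by
      rw [hx1000]
      exact_mod_cast hP
    have hrd' : (r : ℝ) ≤ x ^ 2500 := by
      rw [hx1000]
      exact_mod_cast hrd
    obtain ⟨D, hD⟩ : ∃ D : ℝ, D = 3 * r / (2 * M) := ⟨_, rfl⟩
    obtain ⟨Dt, hDt⟩ : ∃ Dt : ℝ, Dt = D / (2 * K0) := ⟨_, rfl⟩
    obtain ⟨⟨n1, n2, n3, n4⟩, ⟨u1, u2, u3, u4⟩, u5, h3, hz, y1, y2, y3, x1, x2, x3, x4, x5, x6,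
      x7⟩ := num_aux (P := P) (ρ := ρ) (ε := ε) hx hr hrd' hKr hK' hTr hT' hLr hL'
        (Nat.cast_nonneg _) hPd hρ hρ1 hε hM1 hM2 hD hDt rfl
    rw [hx1000] at hz y1 y2
    refine ⟨D, Dt, ?_, ?_, u5, h3, hz, y1, y2, y3, x1, x2, x3, x4, x5, x6, x7⟩
    · exact {
        r0 := by linarith
        k0 := hKr
        t0 := hTr
        l0 := hLr
        M0 := hM0
        dD := hD
        dDt := by
          rw [hDt]
          field_simp
        ρ0 := hρ0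
        ρ1 := hρ1
        δ0 := by positivity
        δρ := n1
        kr := n2
        tD := n3
        lδ := n4 }
    · exact {
        hM := hM
        hK := hK
        hm := hm12
        u1 := u1
        u2 := u2
        u3 := u3
        u4 := u4 }

end Pool.Agent.Work.MP_db9399_eg.helper68
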